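import Mathlib
import Pool.Agent.R713.QuatExtend

set_option autoImplicit false

/-!
# Root subspaces of quaternionic linear maps via real polynomials
-/

namespace Pool.Agent.Helper5.Quat

open Quaternion MulOpposite Polynomial Pool.Agent.R713

/-- The real quadratic polynomial with root `l`. -/
noncomputable def qp (l : ℍ[ℝ]) : ℝ[X] := X ^ 2 - C (2 * l.re) * X + C (normSq l)

theorem quad (q : ℍ[ℝ]) : q * q - (2 * q.re) • q + ((normSq q : ℝ) : ℍ[ℝ]) = 0 := by
  have hn := Quaternion.normSq_def' q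
  ext <;> simp
  · rw [hn]; ring
  · ring
  · ring
  · ring

theorem normSq_ge (q : ℍ[ℝ]) : q.re ^ 2 ≤ normSq q := by
  rw [Quaternion.normSq_def']
  nlinarith [sq_nonneg q.imI, sq_nonneg q.imJ, sq_nonneg q.imK]

/-- A quaternion which is a root of `qp l` has the same real part and norm as `l`. -/
theorem root_quat {l q : ℍ[ℝ]} (h : q * q - (2 * l.re) • q + ((normSq l : ℝ) : ℍ[ℝ]) = 0) :
    q.re = l.re ∧ normSq q = normSq l := by
  have h1 := quad q
  have hr := congrArg QuaternionAlgebra.re h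
  have hi := congrArg QuaternionAlgebra.imI h
  have hj := congrArg QuaternionAlgebra.imJ h
  have hk := congrArg QuaternionAlgebra.imK h
  simp at hr hi hj hk
  have hn := normSq_ge l
  rw [Quaternion.normSq_def' (a := q)]
  by_cases hre : q.re = l.re
  · refine ⟨hre, ?_⟩
    rw [← hre] at hr
    nlinarith
  · exfalso
    have e1 : (q.re - l.re) * q.imI = 0 := by linarith
    have e2 : (q.re - l.re) * q.imJ = 0 := by linarith
    have e3 : (q.re - l.re) * q.imK = 0 := by linarith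
    have hne : q.re - l.re ≠ 0 := sub_ne_zero.2 hre
    have i1 : q.imI = 0 := by rcases mul_eq_zero.1 e1 with h | h; exact absurd h hne; exact h
    have i2 : q.imJ = 0 := by rcases mul_eq_zero.1 e2 with h | h; exact absurd h hne; exact h
    have i3 : q.imK = 0 := by rcases mul_eq_zero.1 e3 with h | h; exact absurd h hne; exact h
    rw [i1, i2, i3] at hr
    have : (q.re - l.re) ^ 2 = 0 := by nlinarith [sq_nonneg (q.re - l.re)]
    exact hne (pow_eq_zero_iff (two_ne_zero) |>.1 this)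

theorem root_complex {l : ℍ[ℝ]} {z : ℂ} (h : aeval z (qp l) = 0) :
    z.re = l.re ∧ Complex.normSq z = normSq l := by
  have hn := normSq_ge l
  unfold qp at h
  simp only [map_add, map_sub, map_pow, map_mul, aeval_X, aeval_C, Complex.coe_algebraMap] at h
  have hr := congrArg Complex.re h
  have hi := congrArg Complex.im h
  simp [pow_two] at hr hi
  rw [Complex.normSq_apply]
  by_cases hre : z.re = l.re
  · refine ⟨hre, ?_⟩
    rw [← hre] at hr
    nlinarith
  · exfalso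
    have e1 : (z.re - l.re) * z.im = 0 := by linarith
    have hne : z.re - l.re ≠ 0 := sub_ne_zero.2 hre
    have i1 : z.im = 0 := by rcases mul_eq_zero.1 e1 with h | h; exact absurd h hne; exact h
    rw [i1] at hr
    have : (z.re - l.re) ^ 2 = 0 := by nlinarith [sq_nonneg (z.re - l.re)]
    exact hne (pow_eq_zero_iff (two_ne_zero) |>.1 this)

theorem coprime {l m : ℍ[ℝ]} (h : ¬ (l.re = m.re ∧ normSq l = normSq m)) :
    IsCoprime (qp l) (qp m) := by
  rw [Polynomial.isCoprime_iff_aeval_ne_zero_of_isAlgClosed ℝ ℂ]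
  intro z
  by_contra hz
  push Not at hz
  obtain ⟨h1, h2⟩ := hz
  obtain ⟨a1, a2⟩ := root_complex h1
  obtain ⟨b1, b2⟩ := root_complex h2
  exact h ⟨a1.symm.trans b1, a2.symm.trans b2⟩

theorem comp_neg (l : ℍ[ℝ]) : (qp l).comp (-X) = qp (-l) := by
  unfold qp
  simp

section

variable {V : Type*} [AddCommGroup V] [Module ℍ[ℝ]ᵐᵒᵖ V] [Module ℝ V] [IsScalarTower ℝ ℍ[ℝ]ᵐᵒᵖ V]

theorem qp_apply (A : V →ₗ[ℍ[ℝ]ᵐᵒᵖ] V) (l : ℍ[ℝ]) (x : V) :
    aeval (toR A) (qp l) x = A (A x) - (2 * l.re) • A x + (normSq l) • x := by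
  unfold qp
  generalize 2 * l.re = c
  simp only [map_add, map_sub, map_mul, aeval_C, aeval_X, LinearMap.add_apply,
    LinearMap.sub_apply, Module.End.mul_apply, Module.algebraMap_end_apply, pow_two]
  rfl

theorem aeval_comm (A : V →ₗ[ℍ[ℝ]ᵐᵒᵖ] V) (p : ℝ[X]) (x : V) :
    aeval (toR A) p (A x) = A (aeval (toR A) p x) := by
  have h1 : aeval (toR A) (p * X) x = aeval (toR A) (X * p) x := by rw [mul_comm]
  rw [map_mul, map_mul, aeval_X, Module.End.mul_apply, Module.End.mul_apply] at h1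
  exact h1

theorem aeval_qp (A : V →ₗ[ℍ[ℝ]ᵐᵒᵖ] V) {x : V} {q : ℍ[ℝ]} (hx : A x = op q • x) (l : ℍ[ℝ]) :
    aeval (toR A) (qp l) x = op (q * q - (2 * l.re) • q + ((normSq l : ℝ) : ℍ[ℝ])) • x := by
  have h2 : A (A x) = op (q * q) • x := by
    rw [hx, map_smul, hx, smul_smul, ← op_mul]
  rw [qp_apply, h2, hx, op_add, op_sub, add_smul, sub_smul, op_real_smul]
  congr 2
  rw [op_smul, smul_assoc]

theorem aeval_qp_self (A : V →ₗ[ℍ[ℝ]ᵐᵒᵖ] V) {x : V} {q : ℍ[ℝ]} (hx : A x = op q • x) :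
    aeval (toR A) (qp q) x = 0 := by
  rw [aeval_qp A hx, quad, op_zero, zero_smul]

/-- The root subspace of the similarity class of `l`. -/
def root (A : V →ₗ[ℍ[ℝ]ᵐᵒᵖ] V) (l : ℍ[ℝ]) : Submodule ℍ[ℝ]ᵐᵒᵖ V where
  carrier := {x | ∃ k : ℕ, aeval (toR A) (qp l ^ k) x = 0}
  add_mem' := by
    rintro x y ⟨k, hk⟩ ⟨m, hm⟩
    refine ⟨k + m, ?_⟩
    rw [map_add]
    have e1 : aeval (toR A) (qp l ^ (k + m)) x = 0 := by
      rw [add_comm, pow_add, map_mul, Module.End.mul_apply, hk, map_zero]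
    have e2 : aeval (toR A) (qp l ^ (k + m)) y = 0 := by
      rw [pow_add, map_mul, Module.End.mul_apply, hm, map_zero]
    rw [e1, e2, add_zero]
  zero_mem' := ⟨0, by simp⟩
  smul_mem' := by
    rintro c x ⟨k, hk⟩
    refine ⟨k, ?_⟩
    have hlin : ∀ (p : ℝ[X]) (x : V), aeval (toR A) p (c • x) = c • aeval (toR A) p x := by
      intro p
      induction p using Polynomial.induction_on' with
      | add p q hp hq =>
        intro x
        rw [map_add, LinearMap.add_apply, LinearMap.add_apply, hp, hq, smul_add]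
      | monomial n a =>
        intro x
        rw [aeval_monomial, Module.algebraMap_end_eq_smul_id]
        have h1 : ∀ n : ℕ, ∀ x, ((toR A) ^ n) (c • x) = c • ((toR A) ^ n) x := by
          intro n
          induction n with
          | zero => intro x; simp
          | succ n ih =>
            intro x
            rw [pow_succ, Module.End.mul_apply, Module.End.mul_apply]
            have : (toR A) (c • x) = c • (toR A) x := map_smul A c x
            rw [this, ih]
        change a • ((toR A) ^ n) (c • x) = c • a • ((toR A) ^ n) x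
        rw [h1, ← op_real_smul, ← op_real_smul, smul_smul, smul_smul]
        congr 1
        obtain ⟨c, rfl⟩ := MulOpposite.op_surjective c
        rw [← op_mul, ← op_mul, Quaternion.coe_commutes]
    change aeval (toR A) (qp l ^ k) (c • x) = 0
    rw [hlin, hk, smul_zero]

theorem mem_root (A : V →ₗ[ℍ[ℝ]ᵐᵒᵖ] V) (l : ℍ[ℝ]) (x : V) :
    x ∈ root A l ↔ ∃ k : ℕ, aeval (toR A) (qp l ^ k) x = 0 := Iff.rfl

theorem root_inv (A : V →ₗ[ℍ[ℝ]ᵐᵒᵖ] V) (l : ℍ[ℝ]) : ∀ x ∈ root A l, A x ∈ root A l := by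
  rintro x ⟨k, hk⟩
  refine ⟨k, ?_⟩
  rw [aeval_comm, hk, map_zero]

theorem eig_mem_root (A : V →ₗ[ℍ[ℝ]ᵐᵒᵖ] V) {x : V} {q : ℍ[ℝ]} (hx : A x = op q • x) :
    x ∈ root A q := ⟨1, by rw [pow_one]; exact aeval_qp_self A hx⟩

/-- An eigenvector in an invariant subspace for a quaternion similar to `l`. -/
theorem exists_eig [FiniteDimensional ℝ V] (A : V →ₗ[ℍ[ℝ]ᵐᵒᵖ] V) (N : Submodule ℍ[ℝ]ᵐᵒᵖ V)
    (hN : ∀ x ∈ N, A x ∈ N) {l : ℍ[ℝ]} {y : V} (hy : y ∈ N) (hy0 : y ≠ 0)
    (h : aeval (toR A) (qp l) y = 0) :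
    ∃ x ∈ N, x ≠ 0 ∧ ∃ q : ℍ[ℝ], A x = op q • x ∧ q.re = l.re ∧ normSq q = normSq l := by
  have hlin : ∀ (c : ℍ[ℝ]ᵐᵒᵖ) (x : V), aeval (toR A) (qp l) (c • x) =
      c • aeval (toR A) (qp l) x := by
    intro c x
    rw [qp_apply, qp_apply, map_smul, map_smul, smul_add, smul_sub]
    obtain ⟨c, rfl⟩ := MulOpposite.op_surjective c
    congr 1
    · congr 1
      rw [← op_real_smul, ← op_real_smul, smul_smul, smul_smul, ← op_mul, ← op_mul,
        Quaternion.coe_commutes]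
    · rw [← op_real_smul, ← op_real_smul, smul_smul, smul_smul, ← op_mul, ← op_mul,
        Quaternion.coe_commutes]
  let R : Submodule ℍ[ℝ]ᵐᵒᵖ V :=
    { carrier := {x | x ∈ N ∧ aeval (toR A) (qp l) x = 0}
      add_mem' := by
        rintro a b ⟨ha, ha'⟩ ⟨hb, hb'⟩
        exact ⟨N.add_mem ha hb, by rw [map_add, ha', hb', add_zero]⟩
      zero_mem' := ⟨N.zero_mem, map_zero _⟩
      smul_mem' := by
        rintro c x ⟨hx, hx'⟩
        exact ⟨N.smul_mem c hx, by rw [hlin, hx', smul_zero]⟩ }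
  have hR : ∀ x ∈ R, A x ∈ R := by
    rintro x ⟨hx, hx'⟩
    refine ⟨hN x hx, ?_⟩
    rw [aeval_comm, hx', map_zero]
  obtain ⟨x, hxR, hx0, q, hq⟩ := exists_eigen A ⊥ R hR (y0 := y) ⟨hy, h⟩ (by simpa using hy0)
  have hq' : A x = op q • x := by
    rw [Submodule.mem_bot, sub_eq_zero] at hq
    exact hq
  have hx0' : x ≠ 0 := by simpa using hx0
  refine ⟨x, hxR.1, hx0', q, hq', ?_⟩
  have h1 := hxR.2
  rw [aeval_qp A hq'] at h1
  have h2 : q * q - (2 * l.re) • q + ((normSq l : ℝ) : ℍ[ℝ]) = 0 := by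
    by_contra hne
    set r := q * q - (2 * l.re) • q + ((normSq l : ℝ) : ℍ[ℝ]) with hr
    apply hx0'
    have h3 : op (r⁻¹) • (op r • x) = x := by
      rw [smul_smul, ← op_mul, mul_inv_cancel₀ hne, op_one, one_smul]
    rw [← h3, h1, smul_zero]
  exact root_quat h2

variable {G : V → V → ℍ[ℝ]}

theorem form_aeval (h : QHerm G) (A : V →ₗ[ℍ[ℝ]ᵐᵒᵖ] V)
    (hA : ∀ x y, G (A x) y = -G x (A y)) (p : ℝ[X]) :
    ∀ x y, G (aeval (toR A) p x) y = G x (aeval (toR A) (p.comp (-X)) y) := by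
  have hr : ∀ (r : ℝ) (x y : V), G (r • x) y = G x (r • y) := by
    intro r x y
    rw [← op_real_smul, ← op_real_smul, h.smul_left, h.smul_right, Quaternion.star_coe,
      Quaternion.coe_commutes]
  induction p using Polynomial.induction_on' with
  | add p q hp hq =>
    intro x y
    rw [map_add, LinearMap.add_apply, h.add_left, hp, hq, add_comp, map_add, LinearMap.add_apply,
      h.add_right]
  | monomial n a =>
    have h1 : ∀ n : ℕ, ∀ x y, G (((toR A) ^ n) x) y = G x (((-(toR A)) ^ n) y) := by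
      intro n
      induction n with
      | zero => intro x y; rfl
      | succ n ih =>
        intro x y
        rw [pow_succ, Module.End.mul_apply, ih, pow_succ', Module.End.mul_apply]
        change G (A x) _ = G x (-(A _))
        rw [hA, h.neg_right]
    intro x y
    rw [aeval_monomial, monomial_comp, map_mul, aeval_C, map_pow, map_neg, aeval_X,
      Module.algebraMap_end_eq_smul_id]
    change G (a • ((toR A) ^ n) x) y = G x (a • ((-(toR A)) ^ n) y)
    rw [hr, h1, ← hr]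
    have : ((-(toR A)) ^ n) (a • y) = a • ((-(toR A)) ^ n) y := map_smul _ _ _
    rw [this, hr]

theorem form_qp (h : QHerm G) (A : V →ₗ[ℍ[ℝ]ᵐᵒᵖ] V)
    (hA : ∀ x y, G (A x) y = -G x (A y)) (l : ℍ[ℝ]) (k : ℕ) (x y : V) :
    G (aeval (toR A) (qp l ^ k) x) y = G x (aeval (toR A) (qp (-l) ^ k) y) := by
  rw [form_aeval h A hA, pow_comp, comp_neg]

/-- Orthogonality of root subspaces. -/
theorem root_orth (h : QHerm G) (A : V →ₗ[ℍ[ℝ]ᵐᵒᵖ] V)
    (hA : ∀ x y, G (A x) y = -G x (A y)) {l m : ℍ[ℝ]}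
    (hlm : ¬ (l.re = (-m).re ∧ normSq l = normSq (-m))) {x y : V} (hx : x ∈ root A l)
    (hy : y ∈ root A m) : G x y = 0 := by
  obtain ⟨k, hk⟩ := hx
  obtain ⟨j, hj⟩ := hy
  obtain ⟨u, v, huv⟩ := (IsCoprime.pow (coprime hlm) : IsCoprime (qp l ^ k) (qp (-m) ^ j))
  have e : x = aeval (toR A) (qp (-m) ^ j) (aeval (toR A) v x) := by
    have h1 : aeval (toR A) (u * qp l ^ k + v * qp (-m) ^ j) x = x := by
      rw [huv, map_one]; rfl
    rw [map_add, LinearMap.add_apply, map_mul, Module.End.mul_apply, hk, map_zero, zero_add,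
      mul_comm, map_mul, Module.End.mul_apply] at h1
    exact h1.symm
  rw [e, form_qp h A hA, neg_neg, hj, h.zero_right]

end

theorem exists_quat (a b c d : ℝ) : ∃ q : ℍ[ℝ], q.re = a ∧ q.imI = b ∧ q.imJ = c ∧ q.imK = d :=
  ⟨⟨a, b, c, d⟩, rfl, rfl, rfl, rfl⟩

/-- Quaternions with the same real part and norm are similar. -/
theorem similar {l m : ℍ[ℝ]} (h1 : l.re = m.re) (h2 : normSq l = normSq m) :
    ∃ q : ℍ[ℝ], q ≠ 0 ∧ q⁻¹ * l * q = m := by
  rw [Quaternion.normSq_def', Quaternion.normSq_def', h1] at h2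
  have key : ∀ q : ℍ[ℝ], q ≠ 0 → l * q = q * m → ∃ q : ℍ[ℝ], q ≠ 0 ∧ q⁻¹ * l * q = m := by
    intro q hq h
    exact ⟨q, hq, by rw [mul_assoc, h, ← mul_assoc, inv_mul_cancel₀ hq, one_mul]⟩
  by_cases hv : l.imI + m.imI = 0 ∧ l.imJ + m.imJ = 0 ∧ l.imK + m.imK = 0
  · obtain ⟨v1, v2, v3⟩ := hv
    have e1 : m.imI = -l.imI := by linarith
    have e2 : m.imJ = -l.imJ := by linarith
    have e3 : m.imK = -l.imK := by linarith
    by_cases h0 : l.imI = 0 ∧ l.imJ = 0
    · obtain ⟨w1, w2⟩ := h0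
      obtain ⟨q, q0, q1, q2, q3⟩ := exists_quat 0 1 0 0
      refine key q ?_ ?_
      · intro h
        rw [h] at q1
        simp at q1
      · ext <;> simp [q0, q1, q2, q3, e1, e2, e3, h1, w1, w2]
    · obtain ⟨q, q0, q1, q2, q3⟩ := exists_quat 0 (-l.imJ) l.imI 0
      refine key q ?_ ?_
      · intro h
        rw [h] at q1 q2
        simp at q1 q2
        exact h0 ⟨q2.symm, q1⟩
      · ext <;> simp [q0, q1, q2, q3, e1, e2, e3, h1] <;> ring
  · obtain ⟨q, q0, q1, q2, q3⟩ := exists_quat 0 (l.imI + m.imI) (l.imJ + m.imJ) (l.imK + m.imK)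
    refine key q ?_ ?_
    · intro h
      rw [h] at q1 q2 q3
      simp at q1 q2 q3
      exact hv ⟨q1.symm, q2.symm, q3.symm⟩
    · ext <;> simp [q0, q1, q2, q3, h1] <;> nlinarith

theorem similar_inv {q l : ℍ[ℝ]} (hq : q ≠ 0) : (q⁻¹ * l * q).re = l.re ∧
    normSq (q⁻¹ * l * q) = normSq l := by
  have hn : normSq (q⁻¹ * l * q) = normSq l := by
    rw [map_mul, map_mul, mul_comm, ← mul_assoc, ← map_mul, mul_inv_cancel₀ hq, map_one, one_mul]
  refine ⟨?_, hn⟩
  have h1 : ∀ a b : ℍ[ℝ], (a * b).re = (b * a).re := by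
    intro a b; simp; ring
  rw [mul_assoc, h1, mul_assoc, mul_inv_cancel₀ hq, mul_one]

end Pool.Agent.Helper5.Quat
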