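import Mathlib
import Pool.Agent.Helper5.Quat.Root

set_option autoImplicit false

/-!
# Invariant maximal nonnegative subspaces with prescribed eigenvalues off the imaginary axis
-/

namespace Pool.Agent.Helper5.Quat

open Quaternion MulOpposite Polynomial Pool.Agent.R713

section

variable {V : Type*} [AddCommGroup V] [Module ℍ[ℝ]ᵐᵒᵖ V] [Module ℝ V] [IsScalarTower ℝ ℍ[ℝ]ᵐᵒᵖ V]

/-- `l` is an eigenvalue of `A` on `M`. -/
def EigOn (A : V →ₗ[ℍ[ℝ]ᵐᵒᵖ] V) (M : Submodule ℍ[ℝ]ᵐᵒᵖ V) (l : ℍ[ℝ]) : Prop :=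
  ∃ x ∈ M, x ≠ 0 ∧ A x = op l • x

/-- The first properties of a c-set. -/
structure PreC (A : V →ₗ[ℍ[ℝ]ᵐᵒᵖ] V) (S : Set ℍ[ℝ]) : Prop where
  eig : ∀ l ∈ S, EigOn A ⊤ l
  re_ne : ∀ l ∈ S, l.re ≠ 0
  sim : ∀ l ∈ S, ∀ q : ℍ[ℝ], q ≠ 0 → q⁻¹ * l * q ∈ S
  neg : ∀ l ∈ S, -l ∉ S

omit [Module ℝ V] [IsScalarTower ℝ ℍ[ℝ]ᵐᵒᵖ V] in
theorem eigOn_sim (A : V →ₗ[ℍ[ℝ]ᵐᵒᵖ] V) (M : Submodule ℍ[ℝ]ᵐᵒᵖ V) {l q : ℍ[ℝ]} (hq : q ≠ 0)
    (h : EigOn A M l) : EigOn A M (q⁻¹ * l * q) := by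
  obtain ⟨x, hx, hx0, hl⟩ := h
  refine ⟨op q • x, M.smul_mem _ hx, ?_, ?_⟩
  · intro h0
    apply hx0
    have : op q⁻¹ • op q • x = x := by
      rw [smul_smul, ← op_mul, mul_inv_cancel₀ hq, op_one, one_smul]
    rw [← this, h0, smul_zero]
  · rw [map_smul, hl, smul_smul, smul_smul, ← op_mul, ← op_mul]
    congr 2
    rw [← mul_assoc, ← mul_assoc, mul_inv_cancel₀ hq, one_mul]

omit [Module ℝ V] [IsScalarTower ℝ ℍ[ℝ]ᵐᵒᵖ V] in
theorem PreC.mem_of {A : V →ₗ[ℍ[ℝ]ᵐᵒᵖ] V} {S : Set ℍ[ℝ]} (hS : PreC A S) {l m : ℍ[ℝ]}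
    (hl : l ∈ S) (h1 : l.re = m.re) (h2 : normSq l = normSq m) : m ∈ S := by
  obtain ⟨q, hq, rfl⟩ := similar h1 h2
  exact hS.sim l hl q hq

omit [Module ℝ V] [IsScalarTower ℝ ℍ[ℝ]ᵐᵒᵖ V] in
/-- An eigenvalue with nonzero real part is in a maximal set, or its negative is. -/
theorem PreC.mem_or {A : V →ₗ[ℍ[ℝ]ᵐᵒᵖ] V} {S : Set ℍ[ℝ]} (hS : PreC A S)
    (hmax : ∀ S' : Set ℍ[ℝ], PreC A S' → S ⊆ S' → S' = S) {m : ℍ[ℝ]} (hm : EigOn A ⊤ m)
    (hre : m.re ≠ 0) : m ∈ S ∨ -m ∈ S := by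
  by_contra hno
  push Not at hno
  obtain ⟨h1, h2⟩ := hno
  apply h1
  have hS' : PreC A (S ∪ {n | n.re = m.re ∧ normSq n = normSq m}) := by
    refine ⟨?_, ?_, ?_, ?_⟩
    · rintro l (hl | ⟨a, b⟩)
      · exact hS.eig l hl
      · obtain ⟨q, hq, rfl⟩ := similar a.symm b.symm
        exact eigOn_sim A ⊤ hq hm
    · rintro l (hl | ⟨a, b⟩)
      · exact hS.re_ne l hl
      · rw [a]; exact hre
    · rintro l (hl | ⟨a, b⟩) q hq
      · exact Or.inl (hS.sim l hl q hq)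
      · right
        obtain ⟨c, d⟩ := similar_inv (l := l) hq
        exact ⟨c.trans a, d.trans b⟩
    · rintro l (hl | ⟨a, b⟩) (hn | ⟨c, d⟩)
      · exact hS.neg l hl hn
      · apply h2
        refine hS.mem_of hl ?_ ?_
        · rw [Quaternion.re_neg] at c ⊢; linarith
        · rw [normSq_neg] at d ⊢; exact d
      · apply h2
        refine hS.mem_of hn ?_ ?_
        · rw [Quaternion.re_neg, Quaternion.re_neg, a]
        · rw [normSq_neg, normSq_neg, b]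
      · rw [Quaternion.re_neg, a] at c
        apply hre
        linarith
  rw [← hmax _ hS' Set.subset_union_left]
  exact Or.inr ⟨rfl, rfl⟩

variable [FiniteDimensional ℝ V] [Module.Finite ℍ[ℝ]ᵐᵒᵖ V] {G : V → V → ℍ[ℝ]}

omit [Module.Finite ℍ[ℝ]ᵐᵒᵖ V] in
/-- A root subspace is orthogonal to an invariant subspace on which the negative is no
eigenvalue. -/
theorem root_orth_inv (h : QHerm G) (A : V →ₗ[ℍ[ℝ]ᵐᵒᵖ] V)
    (hA : ∀ x y, G (A x) y = -G x (A y)) (N : Submodule ℍ[ℝ]ᵐᵒᵖ V) (hN : ∀ x ∈ N, A x ∈ N)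
    {l : ℍ[ℝ]} (hl : ∀ m : ℍ[ℝ], EigOn A N m → ¬ (m.re = (-l).re ∧ normSq m = normSq (-l)))
    {x y : V} (hx : x ∈ root A l) (hy : y ∈ N) : G x y = 0 := by
  obtain ⟨k, hk⟩ := hx
  let f : Module.End ℝ V := aeval (toR A) (qp (-l))
  have hf : ∀ z ∈ N.restrictScalars ℝ, f z ∈ N.restrictScalars ℝ :=
    fun z hz => aeval_mem A N hN _ z hz
  have hinj : Function.Injective (f.restrict hf) := by
    rw [← LinearMap.ker_eq_bot, LinearMap.ker_eq_bot']
    rintro ⟨z, hz⟩ h0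
    by_contra hne
    have hz0 : z ≠ 0 := fun h => hne (Subtype.ext h)
    have h1 : f z = 0 := congrArg Subtype.val h0
    obtain ⟨w, hw, hw0, q, hq, a, b⟩ := exists_eig A N hN hz hz0 h1
    exact hl q ⟨w, hw, hw0, hq⟩ ⟨a, b⟩
  have hsurj : Function.Surjective (f.restrict hf) := LinearMap.injective_iff_surjective.1 hinj
  have hpow : ∀ j : ℕ, ∃ z ∈ N, aeval (toR A) (qp (-l) ^ j) z = y := by
    intro j
    induction j with
    | zero => exact ⟨y, hy, by simp⟩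
    | succ j ih =>
      obtain ⟨z, hz, hzy⟩ := ih
      obtain ⟨⟨w, hw⟩, hwz⟩ := hsurj ⟨z, hz⟩
      refine ⟨w, hw, ?_⟩
      have h2 : f w = z := congrArg Subtype.val hwz
      rw [pow_succ, map_mul, Module.End.mul_apply]
      change aeval (toR A) (qp (-l) ^ j) (f w) = y
      rw [h2, hzy]
  obtain ⟨z, hz, rfl⟩ := hpow k
  rw [← form_qp h A hA, hk, h.zero_left]

theorem extend_spec (h : QHerm G) (A : V →ₗ[ℍ[ℝ]ᵐᵒᵖ] V)
    (hA : ∀ x y, G (A x) y = -G x (A y)) (hker : ∀ x, (∀ y, G x y = 0) → A x = 0)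
    (N : Submodule ℍ[ℝ]ᵐᵒᵖ V) (hN : ∀ x ∈ N, A x ∈ N) (hneu : ∀ x ∈ N, ∀ y ∈ N, G x y = 0)
    (S : Set ℍ[ℝ]) (hS : PreC A S) (hmax : ∀ S' : Set ℍ[ℝ], PreC A S' → S ⊆ S' → S' = S)
    (hNS : ∀ m : ℍ[ℝ], EigOn A N m → m.re ≠ 0 → m ∈ S) :
    ∃ L : Submodule ℍ[ℝ]ᵐᵒᵖ V, N ≤ L ∧ (∀ x ∈ L, A x ∈ L) ∧ QNonneg G L ∧
      (∀ M : Submodule ℍ[ℝ]ᵐᵒᵖ V, L ≤ M → QNonneg G M → M = L) ∧
      {m | EigOn A L m ∧ m.re ≠ 0} = S := by
  have hsymm : ∀ {x y : V}, G x y = 0 → G y x = 0 := by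
    intro x y hxy
    rw [h.symm x y, hxy, star_zero]
  -- the sum of the root subspaces
  let E : Submodule ℍ[ℝ]ᵐᵒᵖ V := ⨆ l : S, root A l
  have hEle : ∀ l ∈ S, root A l ≤ E := fun l hl => le_iSup (fun l : S => root A l) ⟨l, hl⟩
  have hEinv : ∀ x ∈ E, A x ∈ E := by
    intro x hx
    induction hx using Submodule.iSup_induction' with
    | mem i x hx => exact hEle i i.2 (root_inv A i x hx)
    | zero => rw [map_zero]; exact E.zero_mem
    | add x y _ _ h1 h2 => rw [map_add]; exact E.add_mem h1 h2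
  have hort1 : ∀ l ∈ S, ∀ m ∈ S, ¬ (l.re = (-m).re ∧ normSq l = normSq (-m)) := by
    rintro l hl m hm ⟨a, b⟩
    exact hS.neg m hm (hS.mem_of hl a b)
  -- a criterion for orthogonality to `E`
  have hEort : ∀ y : V, (∀ l ∈ S, ∀ x ∈ root A l, G y x = 0) → ∀ x ∈ E, G y x = 0 := by
    intro y hy x hx
    induction hx using Submodule.iSup_induction' with
    | mem i x hx => exact hy i i.2 x hx
    | zero => exact h.zero_right y
    | add x x' _ _ h1 h2 => rw [h.add_right, h1, h2, add_zero]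
  have hEE : ∀ x ∈ E, ∀ y ∈ E, G x y = 0 := by
    intro x hx
    refine hEort x fun l hl y hy => hsymm ?_
    exact hEort y (fun m hm z hz => root_orth h A hA (hort1 l hl m hm) hy hz) x hx
  have hNE : ∀ x ∈ N, ∀ y ∈ E, G x y = 0 := by
    intro x hx
    refine hEort x fun l hl y hy => hsymm ?_
    refine root_orth_inv h A hA N hN ?_ hy hx
    rintro m hm ⟨a, b⟩
    have hm0 : m.re ≠ 0 := by
      rw [a, Quaternion.re_neg]
      exact neg_ne_zero.2 (hS.re_ne l hl)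
    exact hS.neg l hl (hS.mem_of (hNS m hm hm0) a b)
  let N1 := N ⊔ E
  have hN1inv : ∀ x ∈ N1, A x ∈ N1 := by
    intro x hx
    obtain ⟨n, hn, e, he, rfl⟩ := Submodule.mem_sup.1 hx
    rw [map_add]
    exact Submodule.add_mem_sup (hN n hn) (hEinv e he)
  have hN1neu : ∀ x ∈ N1, ∀ y ∈ N1, G x y = 0 := by
    intro x hx y hy
    obtain ⟨n, hn, e, he, rfl⟩ := Submodule.mem_sup.1 hx
    obtain ⟨n', hn', e', he', rfl⟩ := Submodule.mem_sup.1 hy
    rw [h.add_left, h.add_right, h.add_right, hneu n hn n' hn', hNE n hn e' he',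
      hsymm (hNE n' hn' e he), hEE e he e' he']
    simp
  obtain ⟨L, h1, h2, h3, h4⟩ := extend_nonneg h A hA N1 hN1inv hN1neu
  have hEL : E ≤ L := le_sup_right.trans h1
  refine ⟨L, le_sup_left.trans h1, h2, h3, h4, ?_⟩
  ext m
  constructor
  · rintro ⟨⟨x, hxL, hx0, hxm⟩, hre⟩
    rcases hS.mem_or hmax ⟨x, trivial, hx0, hxm⟩ hre with hm | hm
    · exact hm
    · exfalso
      have hxr : x ∈ root A m := eig_mem_root A hxm
      have hxx : G x x = 0 := by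
        refine root_orth h A hA ?_ hxr hxr
        rintro ⟨a, _⟩
        rw [Quaternion.re_neg] at a
        apply hre
        linarith
      have hxL' : ∀ y ∈ L, G x y = 0 := fun y hy => h.cs h3 hxL hy (by rw [hxx]; simp)
      have hx' : ∀ y, G x y = 0 := by
        intro y
        -- Fitting decomposition
        let f : Module.End ℝ V := aeval (toR A) (qp (-m))
        obtain ⟨n, hn⟩ := (f.eventually_isCompl_ker_pow_range_pow).exists_forall_of_atTop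
        have hc := hn (n + 1) (Nat.le_succ n)
        have hy : y ∈ (LinearMap.ker (f ^ (n + 1))) ⊔ (LinearMap.range (f ^ (n + 1))) := by
          rw [hc.sup_eq_top]; trivial
        obtain ⟨u, hu, w, hw, rfl⟩ := Submodule.mem_sup.1 hy
        obtain ⟨v, rfl⟩ := hw
        have hfn : ∀ z, (f ^ (n + 1)) z = aeval (toR A) (qp (-m) ^ (n + 1)) z := by
          intro z
          rw [map_pow]
        rw [h.add_right]
        have e1 : G x u = 0 := by
          refine hxL' u (hEL (hEle _ hm ⟨n + 1, ?_⟩))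
          rw [← hfn]
          exact hu
        have e2 : G x ((f ^ (n + 1)) v) = 0 := by
          rw [hfn, ← form_qp h A hA, pow_succ, map_mul, Module.End.mul_apply,
            aeval_qp_self A hxm, map_zero, h.zero_left]
        rw [e1, e2, add_zero]
      have hAx := hker x hx'
      rw [hxm] at hAx
      have hm0 : m ≠ 0 := fun h0 => hre (by rw [h0]; simp)
      apply hx0
      have h5 : op m⁻¹ • op m • x = x := by
        rw [smul_smul, ← op_mul, mul_inv_cancel₀ hm0, op_one, one_smul]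
      rw [← h5, hAx, smul_zero]
  · intro hm
    refine ⟨?_, hS.re_ne m hm⟩
    obtain ⟨x, _, hx0, hxm⟩ := hS.eig m hm
    exact ⟨x, hEL (hEle m hm (eig_mem_root A hxm)), hx0, hxm⟩

end

end Pool.Agent.Helper5.Quat
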